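import Pool.Agent.H53.CZ.Targets

/-! Module TOG of MP_f2da09_co: a `CZ` gate toggles an edge of a graph state. -/

namespace Pool.Agent.H42.CZ

open Pool.Agent.H53.CZD Finset

theorem tog : TOG := by
  intro n G G' i j h hG
  classical
  funext x
  show (if x i = true ∧ x j = true then (-1 : ℂ) else 1) * graphState G x = graphState G' x
  obtain ⟨m, hm1, hm⟩ : ∃ m : Fin n × Fin n, m.1 < m.2 ∧
      ((m.1 = i ∧ m.2 = j) ∨ (m.1 = j ∧ m.2 = i)) := by
    rcases lt_or_gt_of_ne h with h1 | h1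
    · exact ⟨(i, j), h1, Or.inl ⟨rfl, rfl⟩⟩
    · exact ⟨(j, i), h1, Or.inr ⟨rfl, rfl⟩⟩
  unfold graphState
  rw [← Finset.mul_prod_erase univ _ (mem_univ m), ← Finset.mul_prod_erase univ _ (mem_univ m)]
  have h1 : ∀ p ∈ (univ : Finset (Fin n × Fin n)).erase m,
      (if p.1 < p.2 ∧ G.Adj p.1 p.2 ∧ x p.1 = true ∧ x p.2 = true then (-1 : ℂ) else 1) =
      (if p.1 < p.2 ∧ G'.Adj p.1 p.2 ∧ x p.1 = true ∧ x p.2 = true then (-1 : ℂ) else 1) := by
    intro p hp
    have hpm : p ≠ m := (Finset.mem_erase.1 hp).1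
    by_cases hlt : p.1 < p.2
    · have hadj : G'.Adj p.1 p.2 ↔ G.Adj p.1 p.2 := by
        rw [hG]
        have hno : ¬ ((p.1 = i ∧ p.2 = j) ∨ (p.1 = j ∧ p.2 = i)) := by
          intro hc
          apply hpm
          apply Prod.ext
          · rcases hc with ⟨a, b⟩ | ⟨a, b⟩ <;> rcases hm with ⟨c, d⟩ | ⟨c, d⟩
            · rw [a, c]
            · rw [a, b] at hlt; rw [c, d] at hm1; exact absurd hlt (lt_asymm hm1)
            · rw [a, b] at hlt; rw [c, d] at hm1; exact absurd hlt (lt_asymm hm1)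
            · rw [a, c]
          · rcases hc with ⟨a, b⟩ | ⟨a, b⟩ <;> rcases hm with ⟨c, d⟩ | ⟨c, d⟩
            · rw [b, d]
            · rw [a, b] at hlt; rw [c, d] at hm1; exact absurd hlt (lt_asymm hm1)
            · rw [a, b] at hlt; rw [c, d] at hm1; exact absurd hlt (lt_asymm hm1)
            · rw [b, d]
        constructor
        · rintro ⟨_, h3⟩
          by_contra h4
          exact h3 ⟨fun h5 => absurd h5 h4, fun h5 => absurd h5 hno⟩
        · intro h3
          exact ⟨ne_of_lt hlt, fun h4 => hno (h4.1 h3)⟩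
      simp only [hadj]
    · simp [hlt]
  rw [Finset.prod_congr rfl h1]
  have h2 : (if m.1 < m.2 ∧ G'.Adj m.1 m.2 ∧ x m.1 = true ∧ x m.2 = true then (-1 : ℂ) else 1) =
      (if x i = true ∧ x j = true then (-1 : ℂ) else 1) *
      (if m.1 < m.2 ∧ G.Adj m.1 m.2 ∧ x m.1 = true ∧ x m.2 = true then (-1 : ℂ) else 1) := by
    have hadj : G'.Adj m.1 m.2 ↔ ¬ G.Adj m.1 m.2 := by
      rw [hG]
      constructor
      · rintro ⟨_, h3⟩ h4
        exact h3 ⟨fun _ => hm, fun _ => h4⟩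
      · intro h4
        exact ⟨ne_of_lt hm1, fun h3 => h4 (h3.2 hm)⟩
    have hx : (x m.1 = true ∧ x m.2 = true) ↔ (x i = true ∧ x j = true) := by
      rcases hm with ⟨c, d⟩ | ⟨c, d⟩
      · rw [c, d]
      · rw [c, d]; exact and_comm
    by_cases hxx : x i = true ∧ x j = true
    · by_cases ha : G.Adj m.1 m.2
      · simp [hm1, hadj, hx, hxx, ha]
      · simp [hm1, hadj, hx, hxx, ha]
    · simp [hm1, hadj, hx, hxx]
  rw [h2]
  ring

end Pool.Agent.H42.CZ
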